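import Pool.Agent.W488.IX.Stm

/-! IX-BND1: bounds, region `x <= y`. -/

set_option autoImplicit false

namespace Pool.Agent.W118.IX.Bnd1

open MeasureTheory Set Filter Topology
open Pool.Agent.W488.IW Pool.Agent.W488.IX

theorem om1_cont {α C : ℝ} {κ : ℝ → ℝ} (h : Kap α C κ) : Continuous (om1 κ) := by
  have := intervalIntegral.continuous_primitive (μ := volume) (f := κ)
    (fun a b => h.cont.intervalIntegrable a b) 0
  exact this

theorem om1_nonneg {α C : ℝ} {κ : ℝ → ℝ} (h : Kap α C κ) {s : ℝ} (hs : 0 ≤ s) : 0 ≤ om1 κ s :=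
  intervalIntegral.integral_nonneg hs fun t _ => h.nn t

theorem om_nonneg {α C : ℝ} {κ : ℝ → ℝ} (h : Kap α C κ) {s : ℝ} (hs : 0 ≤ s) : 0 ≤ om κ s :=
  intervalIntegral.integral_nonneg hs fun _ ht => om1_nonneg h ht.1

theorem om1_le {α C : ℝ} {κ : ℝ → ℝ} (h : Kap α C κ) {s : ℝ} (hs : 0 ≤ s) :
    om1 κ s ≤ s * (C * s ^ α) := by
  have hC : 0 ≤ C := by linarith [h.C1]
  have h1 : om1 κ s ≤ ∫ t in (0 : ℝ)..s, (C * s ^ α) := by
    refine intervalIntegral.integral_mono_on hs (h.cont.intervalIntegrable _ _)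
      (by simp) fun t ht => ?_
    exact (h.up t ht.1).trans (mul_le_mul_of_nonneg_left
      (Real.rpow_le_rpow ht.1 ht.2 h.a0.le) hC)
  rwa [intervalIntegral.integral_const, sub_zero, smul_eq_mul] at h1

theorem om_le {α C : ℝ} {κ : ℝ → ℝ} (h : Kap α C κ) {s : ℝ} (hs : 0 ≤ s) :
    om κ s ≤ s * (s * (C * s ^ α)) := by
  have hC : 0 ≤ C := by linarith [h.C1]
  have h1 : om κ s ≤ ∫ t in (0 : ℝ)..s, (s * (C * s ^ α)) := by
    refine intervalIntegral.integral_mono_on hs ((om1_cont h).intervalIntegrable _ _)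
      (by simp) fun t ht => ?_
    refine (om1_le h ht.1).trans ?_
    have h2 : t ^ α ≤ s ^ α := Real.rpow_le_rpow ht.1 ht.2 h.a0.le
    have h3 : 0 ≤ t ^ α := Real.rpow_nonneg ht.1 _
    exact mul_le_mul ht.2 (mul_le_mul_of_nonneg_left h2 hC) (by positivity) hs
  rwa [intervalIntegral.integral_const, sub_zero, smul_eq_mul] at h1

/-- concavity of the power -/
theorem pow_le' {α ε σ : ℝ} (h1 : α ≤ 1) (hε : 0 < ε) (hσ : ε ≤ σ) :
    σ ^ α ≤ σ / ε * ε ^ α := by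
  have h2 : 1 ≤ σ / ε := by rwa [le_div_iff₀ hε, one_mul]
  have h3 : σ = (σ / ε) * ε := by field_simp
  have h4 : σ ^ α = (σ / ε) ^ α * ε ^ α := by
    rw [← Real.mul_rpow (by positivity) hε.le, ← h3]
  rw [h4]
  refine mul_le_mul_of_nonneg_right ?_ (by positivity)
  calc (σ / ε) ^ α ≤ (σ / ε) ^ (1 : ℝ) := Real.rpow_le_rpow_of_exponent_le h2 h1
    _ = σ / ε := Real.rpow_one _

theorem main : S_BND1 := by
  intro α C κ h
  have hC1 : 1 ≤ C := h.C1
  have hC : 0 ≤ C := by linarith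
  refine ⟨20 * C, by linarith, ?_⟩
  intro ε hε hε8 x y hx hxy X Y hX hY
  have hy : 0 ≤ y := hx.trans hxy
  have hXsq : X ^ 2 = x ^ 2 + ε ^ 2 := by rw [hX]; exact Real.sq_sqrt (by positivity)
  have hYsq : Y ^ 2 = y ^ 2 + ε ^ 2 := by rw [hY]; exact Real.sq_sqrt (by positivity)
  have hXp : 0 < X := by rw [hX]; exact Real.sqrt_pos.2 (by positivity)
  have hYp : 0 < Y := by rw [hY]; exact Real.sqrt_pos.2 (by positivity)
  have hxX : x ≤ X := by
    rw [hX]; exact Real.le_sqrt_of_sq_le (by nlinarith [sq_nonneg ε])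
  have hyY : y ≤ Y := by
    rw [hY]; exact Real.le_sqrt_of_sq_le (by nlinarith [sq_nonneg ε])
  have hεX : ε ≤ X := by
    rw [hX]; exact Real.le_sqrt_of_sq_le (by nlinarith [sq_nonneg x])
  have hεY : ε ≤ Y := by
    rw [hY]; exact Real.le_sqrt_of_sq_le (by nlinarith [sq_nonneg y])
  have hXY : X ≤ Y := by
    rw [hX, hY]; exact Real.sqrt_le_sqrt (by nlinarith)
  clear hX hY
  set σ := X + Y with hσ
  have hσp : 0 < σ := by positivity
  have hεσ : ε ≤ σ := by linarith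
  have hσY : σ ≤ 2 * Y := by linarith
  have hXσ : 2 * X ≤ σ := by linarith
  set e := ε ^ α with he
  have hep : 0 < e := Real.rpow_pos_of_pos hε _
  have hA0 : 0 ≤ x / X := by positivity
  have hB0 : 0 ≤ y / Y := by positivity
  have hA1 : x / X ≤ 1 := by rwa [div_le_one hXp]
  have hB1 : y / Y ≤ 1 := by rwa [div_le_one hYp]
  have hAA : 1 - (x / X) ^ 2 = ε ^ 2 / X ^ 2 := by
    field_simp; linarith
  have hBB : 1 - (y / Y) ^ 2 = ε ^ 2 / Y ^ 2 := by
    field_simp; linarith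
  have hpow : σ ^ α ≤ σ / ε * e := pow_le' h.a1 hε hεσ
  have hs0 : 0 ≤ σ ^ α := Real.rpow_nonneg hσp.le _
  have hκ : κ σ ≤ C * σ ^ α := h.up σ hσp.le
  have hκ0 : 0 ≤ κ σ := h.nn σ
  have hκC : κ σ ≤ C := h.bd σ
  -- rho / 2
  have hr : 2 * X * κ σ / σ / 2 = X * κ σ / σ := by ring
  have hr0 : 0 ≤ X * κ σ / σ := by positivity
  have hr1 : X * κ σ / σ ≤ X * (C * e / ε) := by
    rw [div_le_iff₀ hσp]
    calc X * κ σ ≤ X * (C * (σ / ε * e)) := by
          refine mul_le_mul_of_nonneg_left (hκ.trans (mul_le_mul_of_nonneg_left hpow hC)) hXp.le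
      _ = X * (C * e / ε) * σ := by field_simp
  have hr2 : X * κ σ / σ ≤ C * σ ^ α := by
    rw [div_le_iff₀ hσp]
    have : X * κ σ ≤ σ * (C * σ ^ α) := mul_le_mul (by linarith) hκ hκ0 hσp.le
    linarith
  have hr3 : X * κ σ / σ ≤ C := by
    rw [div_le_iff₀ hσp]
    have : X * κ σ ≤ σ * C := mul_le_mul (by linarith) hκC hκ0 hσp.le
    linarith
  -- zeta
  have hz0 : 0 ≤ om1 κ σ / Y := div_nonneg (om1_nonneg h hσp.le) hYp.le
  have hz1 : om1 κ σ / Y ≤ 2 * (C * σ ^ α) := by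
    rw [div_le_iff₀ hYp]
    have h1 := om1_le h hσp.le
    have h2 : σ * (C * σ ^ α) ≤ 2 * Y * (C * σ ^ α) :=
      mul_le_mul_of_nonneg_right hσY (by positivity)
    linarith
  have hz2 : om1 κ σ / Y ≤ 2 * C := by
    rw [div_le_iff₀ hYp]
    have h1 : om1 κ σ ≤ ∫ t in (0 : ℝ)..σ, C := by
      refine intervalIntegral.integral_mono_on hσp.le (h.cont.intervalIntegrable _ _)
        (by simp) fun t _ => h.bd t
    have h2 : (∫ t in (0 : ℝ)..σ, C) = σ * C := by simp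
    rw [h2] at h1
    have h3 : σ * C ≤ 2 * Y * C := mul_le_mul_of_nonneg_right hσY hC
    linarith
  -- omega
  have ho0 : 0 ≤ om κ σ / Y ^ 2 := div_nonneg (om_nonneg h hσp.le) (by positivity)
  have ho1 : om κ σ / Y ^ 2 ≤ 4 * (C * σ ^ α) := by
    rw [div_le_iff₀ (by positivity)]
    have h1 := om_le h hσp.le
    have h2 : σ * (σ * (C * σ ^ α)) ≤ (2 * Y) * ((2 * Y) * (C * σ ^ α)) := by
      refine mul_le_mul hσY (mul_le_mul_of_nonneg_right hσY (by positivity)) (by positivity)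
        (by positivity)
    nlinarith
  -- the key estimate
  have hkey : ε ^ 2 / Y ^ 2 * (C * σ ^ α) ≤ 2 * C * e := by
    have h1 : C * σ ^ α ≤ C * (2 * Y / ε * e) := by
      refine mul_le_mul_of_nonneg_left (hpow.trans ?_) hC
      refine mul_le_mul_of_nonneg_right ?_ hep.le
      gcongr
    calc ε ^ 2 / Y ^ 2 * (C * σ ^ α) ≤ ε ^ 2 / Y ^ 2 * (C * (2 * Y / ε * e)) :=
          mul_le_mul_of_nonneg_left h1 (by positivity)
      _ = (ε / Y) * (2 * C * e) := by field_simp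
      _ ≤ 1 * (2 * C * e) := by
          refine mul_le_mul_of_nonneg_right ?_ (by positivity)
          rwa [div_le_one hYp]
      _ = 2 * C * e := one_mul _
  have hb1 : (1 - (x / X) ^ 2) * (X * κ σ / σ) ≤ C * e := by
    rw [hAA]
    calc ε ^ 2 / X ^ 2 * (X * κ σ / σ) ≤ ε ^ 2 / X ^ 2 * (X * (C * e / ε)) :=
          mul_le_mul_of_nonneg_left hr1 (by positivity)
      _ = (ε / X) * (C * e) := by field_simp
      _ ≤ 1 * (C * e) := by
          refine mul_le_mul_of_nonneg_right ?_ (by positivity)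
          rwa [div_le_one hXp]
      _ = C * e := one_mul _
  have hb2 : (1 - (y / Y) ^ 2) * (X * κ σ / σ) ≤ 2 * C * e := by
    rw [hBB]
    exact (mul_le_mul_of_nonneg_left hr2 (by positivity)).trans hkey
  have hb2' : (1 - (y / Y) ^ 2) * (om1 κ σ / Y) ≤ 4 * C * e := by
    rw [hBB]
    have := mul_le_mul_of_nonneg_left hz1 (show 0 ≤ ε ^ 2 / Y ^ 2 by positivity)
    nlinarith
  have hb2'' : (1 - (y / Y) ^ 2) * (om κ σ / Y ^ 2) ≤ 8 * C * e := by
    rw [hBB]
    have := mul_le_mul_of_nonneg_left ho1 (show 0 ≤ ε ^ 2 / Y ^ 2 by positivity)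
    nlinarith
  have hA2 : 0 ≤ 1 - (x / X) ^ 2 := by rw [hAA]; positivity
  have hB2 : 0 ≤ 1 - (y / Y) ^ 2 := by rw [hBB]; positivity
  have hAB : 1 - x / X * (y / Y) ≤ (1 - (x / X) ^ 2) + (1 - (y / Y) ^ 2) := by
    have h1 : 0 ≤ x / X * (y / Y) := by positivity
    have h2 : x / X * (y / Y) ≤ 1 := by
      calc x / X * (y / Y) ≤ 1 * 1 := mul_le_mul hA1 hB1 hB0 zero_le_one
        _ = 1 := one_mul _
    nlinarith [mul_nonneg hA2 hB2]
  have hAB0 : 0 ≤ 1 - x / X * (y / Y) := by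
    have h2 : x / X * (y / Y) ≤ 1 := by
      calc x / X * (y / Y) ≤ 1 * 1 := mul_le_mul hA1 hB1 hB0 zero_le_one
        _ = 1 := one_mul _
    linarith
  have hCe : 0 ≤ C * e := by positivity
  refine ⟨⟨hA0, hA1⟩, ⟨hB0, hB1⟩, ⟨by positivity, ?_⟩, ⟨le_refl _, by positivity⟩,
    ⟨le_refl _, by positivity⟩, ⟨hz0, by linarith⟩, ?_, ?_, ?_, ?_, ?_, ?_⟩
  · have : 2 * X * κ σ / σ = 2 * (X * κ σ / σ) := by ring
    rw [this]; linarith
  · rw [hr, add_zero, sub_zero, abs_of_nonneg hr0]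
    linarith
  · rw [hr, add_zero]
    have h1 : |X * κ σ / σ - om1 κ σ / Y| ≤ X * κ σ / σ + om1 κ σ / Y := by
      rw [abs_le]; constructor <;> linarith
    have h2 := mul_le_mul_of_nonneg_left h1 hB2
    rw [mul_add] at h2
    linarith
  · rw [hr, sub_zero, abs_of_nonneg hr0]
    have h1 := mul_le_mul_of_nonneg_right hAB hr0
    rw [add_mul] at h1
    linarith
  · simp only [mul_zero, add_zero, sub_zero, abs_zero]
    linarith
  · have h1 : |2 * -om κ σ / Y ^ 2 + (om1 κ σ / Y + 2 * 0)|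
        ≤ 2 * (om κ σ / Y ^ 2) + om1 κ σ / Y := by
      have : 2 * -om κ σ / Y ^ 2 + (om1 κ σ / Y + 2 * 0)
        = - (2 * (om κ σ / Y ^ 2)) + om1 κ σ / Y := by ring
      rw [this, abs_le]; constructor <;> linarith
    have h2 := mul_le_mul_of_nonneg_left h1 hB2
    rw [mul_add] at h2
    linarith
  · have h1 : (1 - x / X * (y / Y)) * (2 * 0 - om1 κ σ / Y) ≤ 0 := by
      apply mul_nonpos_of_nonneg_of_nonpos hAB0
      linarith
    linarith

end Pool.Agent.W118.IX.Bnd1
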